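import Pool.Agent.R485.Cantor.AP

/-!
# A `Q`-normal number which is AP-normal for no modulus equal to the order

There are a basic sequence `Q`, infinite in limit and fully divergent of type I, and a `Q`-normal real
number `x` which belongs to none of the sets `N^AP_k(Q; k, r)`, `k ≥ 2`, `0 ≤ r < k`.

The basic sequence consists of runs of small (slowly growing) values `b`, separated by huge terms, at
which the digit is large. The starting place of each run of length `k` is chosen in a residue class
modulo `k`. Besides the runs which make the number normal there are, for every `k ≥ 2`, runs of length
`k` in which the word `0 ⋯ 0` is used only at places `≡ 0 (mod k)` and the other words of length `k`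
are used at the places of the other residue classes. Altogether every word of length `k` is used
equally often, but among the places `≡ r (mod k)` the word `0 ⋯ 0` is used too often (`r = 0`) or too
rarely (`r ≠ 0`).
-/

set_option autoImplicit false

namespace Pool.Agent.Results.MP_8144ad_nt.NormalNotAPNormal

open Filter Topology Pool.Agent.R485.Cantor

/-- There are a basic sequence `q` with `q_n → ∞`, fully divergent of type I, and a real number `x`
which is `Q`-normal of every order `k ≥ 1` and belongs to no `N^AP_k(Q; k, r)` with `k ≥ 2` and
`0 ≤ r ≤ k - 1`. -/
theorem result : ∃ (q : ℕ → ℕ) (x : ℝ), Basic q ∧ Tendsto q atTop atTop ∧ FullyDivergentI q ∧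
    (∀ k, 1 ≤ k → NormalOfOrder q k x) ∧
    ∀ k r, 2 ≤ k → r < k → ¬ APNormal q k k r x := ap

end Pool.Agent.Results.MP_8144ad_nt.NormalNotAPNormal
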